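import Pool.Agent.R302.CountGen

open Set Filter Topology

namespace Pool.Agent.Results.MP_3ada3c_an.CountablyGenerated

open Pool.Agent.R302.CountGen

/-- `S` generates the spectrum in `A`: the spectrum of every `x` is the closure of the set of the
values at `x` of the characters in `S`. -/
def GeneratesSpectrum (A : Type) [NormedCommRing A] [NormedAlgebra ℂ A]
    (S : Set (WeakDual.characterSpace ℂ A)) : Prop :=
  ∀ x : A, spectrum ℂ x = closure ((fun φ : WeakDual.characterSpace ℂ A => φ x) '' S)

/-- There is a commutative unital complex Banach algebra whose spectrum is countably generated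
and whose Gelfand space is not separable; the Gelfand space even contains uncountably many
pairwise disjoint nonempty open sets. -/
theorem result : ∃ (A : Type) (_ : NormedCommRing A) (_ : NormedAlgebra ℂ A)
    (_ : CompleteSpace A),
    (∃ S : Set (WeakDual.characterSpace ℂ A), S.Countable ∧ GeneratesSpectrum A S) ∧
    ¬ TopologicalSpace.SeparableSpace (WeakDual.characterSpace ℂ A) ∧
    ∃ V : (ℕ → Bool) → Set (WeakDual.characterSpace ℂ A), (∀ f, IsOpen (V f)) ∧
      (∀ f, (V f).Nonempty) ∧ ∀ f g, f ≠ g → Disjoint (V f) (V g) := by
  refine ⟨AA, inferInstance, inferInstance, inferInstance, ?_, not_separable,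
    fun f => V (br f), fun f => isOpen_V _, fun f => V_nonempty (br_infinite f),
    fun f g h => V_disjoint (br_inter h)⟩
  refine ⟨Set.range fun p : J × ℕ => WeakDual.CharacterSpace.equivAlgHom.symm (evl p.1 (ds p.2)),
    Set.countable_range _, fun x => ?_⟩
  rw [spectrum_eq x, ← Set.range_comp]
  rfl

end Pool.Agent.Results.MP_3ada3c_an.CountablyGenerated
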